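import Pool.Agent.W455.EM.Stm

set_option autoImplicit false

namespace Pool.Agent.W804.EM

open Finset Pool.Agent.FracEM.PMT Pool.Agent.W455.EM

variable {n : ℕ}

theorem star_card (r : ℕ) (s : Fin n) :
    (((univ : Finset (Fin n)).powersetCard (r + 1)).filter (fun X => s ∈ X)).card ≤ n ^ r := by
  have h1 : (((univ : Finset (Fin n)).powersetCard (r + 1)).filter (fun X => s ∈ X)).card ≤
      ((univ : Finset (Fin n)).powersetCard r).card := by
    refine Finset.card_le_card_of_injOn (fun X => X.erase s) ?_ ?_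
    · intro X hX
      have hX' := (mem_filter.1 hX)
      rw [mem_powersetCard] at hX'
      refine mem_coe.2 (mem_powersetCard.2 ⟨subset_univ _, ?_⟩)
      rw [card_erase_of_mem hX'.2, hX'.1.2]
      rfl
    · intro X hX Y hY hXY
      have hX' := (mem_filter.1 (mem_coe.1 hX)).2
      have hY' := (mem_filter.1 (mem_coe.1 hY)).2
      have h2 : X.erase s = Y.erase s := hXY
      rw [← insert_erase hX', ← insert_erase hY', h2]
  refine h1.trans ?_
  rw [card_powersetCard, card_univ, Fintype.card_fin]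
  exact Nat.choose_le_pow n r

theorem touch (r : ℕ) (S : Finset (Fin n)) :
    (((univ : Finset (Fin n)).powersetCard (r + 1)).filter (fun X => ¬ Disjoint X S)).card ≤
      S.card * n ^ r := by
  have h1 : ((univ : Finset (Fin n)).powersetCard (r + 1)).filter (fun X => ¬ Disjoint X S) ⊆
      S.biUnion (fun s => ((univ : Finset (Fin n)).powersetCard (r + 1)).filter
        (fun X => s ∈ X)) := by
    intro X hX
    obtain ⟨h2, h3⟩ := mem_filter.1 hX
    rw [Finset.not_disjoint_iff] at h3
    obtain ⟨s, hs, hs'⟩ := h3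
    exact mem_biUnion.2 ⟨s, hs', mem_filter.2 ⟨h2, hs⟩⟩
  refine (card_le_card h1).trans (card_biUnion_le.trans ?_)
  refine (Finset.sum_le_card_nsmul _ _ (n ^ r) fun s _ => star_card r s).trans ?_
  rw [smul_eq_mul]

/-- degree into `B` -/
def dB (r : ℕ) (H : Finset (Finset (Fin n))) (B : Finset (Fin n)) (v : Fin n) : ℕ :=
  (((B.erase v).powersetCard (r + 1)).filter (fun T => insert v T ∈ H)).card

/-- missing sets touching the complement of `B` -/
def miss (r : ℕ) (H : Finset (Finset (Fin n))) (B : Finset (Fin n)) (v : Fin n) : ℕ :=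
  (((univ.erase v).powersetCard (r + 1)).filter
    (fun X => ¬ Disjoint X (univ \ B) ∧ insert v X ∉ H)).card

/-- missing sets in `B` -/
def nb (r : ℕ) (H : Finset (Finset (Fin n))) (B : Finset (Fin n)) (a : Fin n) : ℕ :=
  ((B.powersetCard (r + 1)).filter (fun T => insert a T ∉ H)).card

theorem deg_eq (r : ℕ) (H : Finset (Finset (Fin n))) (hH : ∀ e ∈ H, e.card = r + 2) (v : Fin n) :
    (((univ.erase v).powersetCard (r + 1)).filter (fun X => insert v X ∈ H)).card = deg H v := by
  unfold deg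
  refine Finset.card_bij' (fun X _ => insert v X) (fun e _ => e.erase v) ?_ ?_ ?_ ?_
  · intro X hX
    exact mem_filter.2 ⟨(mem_filter.1 hX).2, mem_insert_self _ _⟩
  · intro e he
    obtain ⟨h1, h2⟩ := mem_filter.1 he
    refine mem_filter.2 ⟨mem_powersetCard.2 ⟨?_, ?_⟩, ?_⟩
    · exact erase_subset_erase v (subset_univ _)
    · rw [card_erase_of_mem h2, hH e h1]
      rfl
    · rw [insert_erase h2]
      exact h1
  · intro X hX
    have h1 := (mem_powersetCard.1 (mem_filter.1 hX).1).1
    have h2 : v ∉ X := fun h => (mem_erase.1 (h1 h)).1 rfl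
    exact erase_insert h2
  · intro e he
    exact insert_erase (mem_filter.1 he).2

theorem miss_le (r : ℕ) (H : Finset (Finset (Fin n))) (B : Finset (Fin n))
    (hH : ∀ e ∈ H, e.card = r + 2) (v : Fin n)
    (hD : (n - 1).choose (r + 1) + 1 ≤ deg H v + B.card.choose (r + 1)) :
    miss r H B v ≤ n ^ r + dB r H B v := by
  set P := ((univ : Finset (Fin n)).erase v).powersetCard (r + 1) with hP
  have hPc : P.card = (n - 1).choose (r + 1) := by
    rw [hP, card_powersetCard, card_erase_of_mem (mem_univ v), card_univ, Fintype.card_fin]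
  have h1 : (P.filter (fun X => insert v X ∈ H)).card +
      (P.filter (fun X => insert v X ∉ H)).card = P.card :=
    Finset.card_filter_add_card_filter_not _
  rw [deg_eq r H hH v] at h1
  have h2 : ((P.filter (fun X => insert v X ∉ H)).filter (fun X => Disjoint X (univ \ B))).card +
      ((P.filter (fun X => insert v X ∉ H)).filter (fun X => ¬ Disjoint X (univ \ B))).card =
      (P.filter (fun X => insert v X ∉ H)).card :=
    Finset.card_filter_add_card_filter_not _
  have h3 : (P.filter (fun X => insert v X ∉ H)).filter (fun X => Disjoint X (univ \ B)) =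
      ((B.erase v).powersetCard (r + 1)).filter (fun X => insert v X ∉ H) := by
    ext X
    simp only [hP, mem_filter, mem_powersetCard]
    constructor
    · rintro ⟨⟨⟨h4, h5⟩, h6⟩, h7⟩
      refine ⟨⟨?_, h5⟩, h6⟩
      intro x hx
      refine mem_erase.2 ⟨(mem_erase.1 (h4 hx)).1, ?_⟩
      by_contra hxB
      exact (Finset.disjoint_left.1 h7 hx) (mem_sdiff.2 ⟨mem_univ x, hxB⟩)
    · rintro ⟨⟨h4, h5⟩, h6⟩
      refine ⟨⟨⟨?_, h5⟩, h6⟩, ?_⟩
      · intro x hx
        exact mem_erase.2 ⟨(mem_erase.1 (h4 hx)).1, mem_univ x⟩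
      · rw [Finset.disjoint_left]
        intro x hx hx'
        exact (mem_sdiff.1 hx').2 (mem_erase.1 (h4 hx)).2
  have h4 : ((P.filter (fun X => insert v X ∉ H)).filter
      (fun X => ¬ Disjoint X (univ \ B))).card = miss r H B v := by
    unfold miss
    rw [filter_filter]
    congr 1
    refine filter_congr fun X _ => ?_
    exact and_comm
  have h5 : (((B.erase v).powersetCard (r + 1)).filter (fun T => insert v T ∈ H)).card +
      (((B.erase v).powersetCard (r + 1)).filter (fun T => insert v T ∉ H)).card =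
      ((B.erase v).powersetCard (r + 1)).card :=
    Finset.card_filter_add_card_filter_not _
  rw [card_powersetCard] at h5
  have h6 : B.card.choose (r + 1) ≤ (B.erase v).card.choose (r + 1) + n ^ r := by
    by_cases hv : v ∈ B
    · have h7 : B.card = (B.erase v).card + 1 := by
        rw [card_erase_of_mem hv]
        have : 0 < B.card := card_pos.2 ⟨v, hv⟩
        omega
      have h8 : (B.erase v).card ≤ n := by
        have := card_le_univ (B.erase v)
        rwa [Fintype.card_fin] at this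
      have h9 : (B.erase v).card.choose r ≤ n ^ r :=
        (Nat.choose_le_pow _ _).trans (Nat.pow_le_pow_left h8 r)
      rw [h7]
      generalize (B.erase v).card = c at h9 ⊢
      have h10 : (c + 1).choose (r + 1) = c.choose r + c.choose (r + 1) :=
        Nat.choose_succ_succ' c r
      rw [h10]
      linarith
    · rw [erase_eq_of_notMem hv]
      omega
  rw [h3] at h2
  rw [h4] at h2
  have h10 : dB r H B v = (((B.erase v).powersetCard (r + 1)).filter
    (fun T => insert v T ∈ H)).card := rfl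
  omega

theorem sum_dB (r : ℕ) (H : Finset (Finset (Fin n))) (B : Finset (Fin n))
    (hH : ∀ e ∈ H, e.card = r + 2) :
    ∑ v ∈ B, dB r H B v ≤ (r + 2) * (H.filter (fun e => e ⊆ B)).card := by
  have h1 : ∑ v ∈ B, dB r H B v = (B.sigma (fun v => ((B.erase v).powersetCard (r + 1)).filter
      (fun T => insert v T ∈ H))).card := by
    rw [card_sigma]
    rfl
  have h2 : ((H.filter (fun e => e ⊆ B)).sigma (fun e => e)).card =
      (r + 2) * (H.filter (fun e => e ⊆ B)).card := by
    rw [card_sigma, mul_comm, Finset.sum_const_nat]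
    intro e he
    exact hH e (mem_filter.1 he).1
  rw [h1, ← h2]
  refine Finset.card_le_card_of_injOn
    (fun p : (Σ _ : Fin n, Finset (Fin n)) => (⟨insert p.1 p.2, p.1⟩ : Σ _ : Finset (Fin n), Fin n))
    ?_ ?_
  · rintro ⟨v, T⟩ hp
    have hp' := mem_sigma.1 (mem_coe.1 hp)
    simp only [mem_filter, mem_powersetCard] at hp'
    obtain ⟨hv, ⟨hT, _⟩, hI⟩ := hp'
    refine mem_coe.2 (mem_sigma.2 ⟨mem_filter.2 ⟨hI, ?_⟩, mem_insert_self _ _⟩)
    intro x hx
    rcases mem_insert.1 hx with h | h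
    · rw [h]; exact hv
    · exact (mem_erase.1 (hT h)).2
  · rintro ⟨v, T⟩ hp ⟨v', T'⟩ hp' heq
    have hp1 := mem_sigma.1 (mem_coe.1 hp)
    have hp2 := mem_sigma.1 (mem_coe.1 hp')
    simp only [mem_filter, mem_powersetCard] at hp1 hp2
    simp only [Sigma.mk.injEq] at heq
    obtain ⟨e1, e2⟩ := heq
    have e3 : v = v' := by simpa using e2
    subst e3
    have n1 : v ∉ T := fun h => (mem_erase.1 (hp1.2.1.1 h)).1 rfl
    have n2 : v ∉ T' := fun h => (mem_erase.1 (hp2.2.1.1 h)).1 rfl
    have e4 : T = T' := by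
      rw [← erase_insert n1, ← erase_insert n2, e1]
    rw [e4]

theorem sum_nb (r : ℕ) (H : Finset (Finset (Fin n))) (B : Finset (Fin n)) :
    ∑ a ∈ univ \ B, nb r H B a ≤ ∑ v ∈ B, miss r H B v := by
  have h1 : ∑ a ∈ univ \ B, nb r H B a = ((univ \ B).sigma (fun a => (B.powersetCard (r + 1)).filter
      (fun T => insert a T ∉ H))).card := by
    rw [card_sigma]
    rfl
  have h2 : ∑ v ∈ B, miss r H B v = (B.sigma (fun v => ((univ.erase v).powersetCard (r + 1)).filter
      (fun X => ¬ Disjoint X (univ \ B) ∧ insert v X ∉ H))).card := by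
    rw [card_sigma]
    rfl
  rw [h1, h2]
  classical
  let g : Fin n → Finset (Fin n) → Fin n := fun a T => if h : T.Nonempty then h.choose else a
  have hg : ∀ a T, T.Nonempty → g a T ∈ T := by
    intro a T h
    simp only [g, dif_pos h]
    exact h.choose_spec
  have hne : ∀ T : Finset (Fin n), T.card = r + 1 → T.Nonempty := by
    intro T hT
    rw [← card_pos, hT]
    omega
  refine Finset.card_le_card_of_injOn
    (fun p : (Σ _ : Fin n, Finset (Fin n)) =>
      (⟨g p.1 p.2, insert p.1 (p.2.erase (g p.1 p.2))⟩ : Σ _ : Fin n, Finset (Fin n))) ?_ ?_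
  · rintro ⟨a, T⟩ hp
    have hp' := mem_sigma.1 (mem_coe.1 hp)
    simp only [mem_filter, mem_powersetCard, mem_sdiff, mem_univ, true_and] at hp'
    obtain ⟨ha, ⟨hT, hTc⟩, hI⟩ := hp'
    have hgT := hg a T (hne T hTc)
    have hgB : g a T ∈ B := hT hgT
    have hag : a ≠ g a T := fun h => ha (h ▸ hgB)
    have haT : a ∉ T := fun h => ha (hT h)
    have hins : insert (g a T) (insert a (T.erase (g a T))) = insert a T := by
      rw [insert_comm, insert_erase hgT]
    refine mem_coe.2 (mem_sigma.2 ⟨hgB, mem_filter.2 ⟨mem_powersetCard.2 ⟨?_, ?_⟩, ?_, ?_⟩⟩)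
    · intro x hx
      refine mem_erase.2 ⟨?_, mem_univ x⟩
      rcases mem_insert.1 hx with h | h
      · rw [h]; exact hag
      · exact (mem_erase.1 h).1
    · rw [card_insert_of_notMem (fun h => haT (mem_erase.1 h).2), card_erase_of_mem hgT, hTc]
      rfl
    · rw [Finset.not_disjoint_iff]
      exact ⟨a, mem_insert_self _ _, mem_sdiff.2 ⟨mem_univ a, ha⟩⟩
    · show insert (g a T) (insert a (T.erase (g a T))) ∉ H
      rw [hins]
      exact hI
  · rintro ⟨a, T⟩ hp ⟨a', T'⟩ hp' heq
    have hp1 := mem_sigma.1 (mem_coe.1 hp)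
    have hp2 := mem_sigma.1 (mem_coe.1 hp')
    simp only [mem_filter, mem_powersetCard, mem_sdiff, mem_univ, true_and] at hp1 hp2
    obtain ⟨ha, ⟨hT, hTc⟩, -⟩ := hp1
    obtain ⟨ha', ⟨hT', hTc'⟩, -⟩ := hp2
    simp only [Sigma.mk.injEq] at heq
    obtain ⟨e1, e2⟩ := heq
    have e2' : insert a (T.erase (g a T)) = insert a' (T'.erase (g a' T')) := by simpa using e2
    have hgT := hg a T (hne T hTc)
    have hgT' := hg a' T' (hne T' hTc')
    have e3 : insert a T = insert a' T' := by
      have i1 : insert (g a T) (insert a (T.erase (g a T))) = insert a T := by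
        rw [insert_comm, insert_erase hgT]
      have i2 : insert (g a' T') (insert a' (T'.erase (g a' T'))) = insert a' T' := by
        rw [insert_comm, insert_erase hgT']
      rw [← i1, ← i2, e2', e1]
    have e4 : a = a' := by
      have : a ∈ insert a' T' := e3 ▸ mem_insert_self a T
      rcases mem_insert.1 this with h | h
      · exact h
      · exact absurd (hT' h) ha
    subst e4
    have e5 : T = T' := by
      rw [← erase_insert (fun h => ha (hT h) : a ∉ T), ← erase_insert (fun h => ha (hT' h) : a ∉ T'),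
        e3]
    rw [e5]

/-- the combinatorial facts about the set `A` -/
theorem core (r : ℕ) (H : Finset (Finset (Fin n))) (B A : Finset (Fin n)) (v : Fin n) :
    (((univ.erase v).powersetCard (r + 1)).filter
      (fun X => ¬ Disjoint X A ∧ insert v X ∉ H)).card ≤
        miss r H B v + (A ∩ B).card * n ^ r ∧
    ((((univ \ A).erase v).powersetCard (r + 1)).filter (fun X => insert v X ∈ H)).card ≤
        dB r H B v + ((univ \ B) \ A).card * n ^ r ∧
    dB r H B v ≤ (((univ \ A).powersetCard (r + 1)).filter (fun X => insert v X ∈ H)).card +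
        (A ∩ B).card * n ^ r ∧
    (((univ \ A).powersetCard (r + 1)).filter (fun X => insert v X ∉ H)).card ≤
        nb r H B v + ((univ \ B) \ A).card * n ^ r := by
  refine ⟨?_, ?_, ?_, ?_⟩
  · have h1 : ((univ.erase v).powersetCard (r + 1)).filter
        (fun X => ¬ Disjoint X A ∧ insert v X ∉ H) ⊆
        ((univ.erase v).powersetCard (r + 1)).filter
          (fun X => ¬ Disjoint X (univ \ B) ∧ insert v X ∉ H) ∪
        (univ.powersetCard (r + 1)).filter (fun X => ¬ Disjoint X (A ∩ B)) := by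
      intro X hX
      obtain ⟨h2, h3, h4⟩ := mem_filter.1 hX
      rw [Finset.not_disjoint_iff] at h3
      obtain ⟨a, ha, haA⟩ := h3
      by_cases haB : a ∈ B
      · refine mem_union_right _ (mem_filter.2 ⟨?_, ?_⟩)
        · exact mem_powersetCard.2 ⟨subset_univ _, (mem_powersetCard.1 h2).2⟩
        · rw [Finset.not_disjoint_iff]
          exact ⟨a, ha, mem_inter.2 ⟨haA, haB⟩⟩
      · refine mem_union_left _ (mem_filter.2 ⟨h2, ?_, h4⟩)
        rw [Finset.not_disjoint_iff]
        exact ⟨a, ha, mem_sdiff.2 ⟨mem_univ a, haB⟩⟩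
    exact (card_le_card h1).trans ((card_union_le _ _).trans
      (Nat.add_le_add_left (touch r (A ∩ B)) _))
  · have h1 : (((univ \ A).erase v).powersetCard (r + 1)).filter (fun X => insert v X ∈ H) ⊆
        ((B.erase v).powersetCard (r + 1)).filter (fun T => insert v T ∈ H) ∪
        (univ.powersetCard (r + 1)).filter (fun X => ¬ Disjoint X ((univ \ B) \ A)) := by
      intro X hX
      obtain ⟨h2, h3⟩ := mem_filter.1 hX
      obtain ⟨h4, h5⟩ := mem_powersetCard.1 h2
      by_cases h6 : Disjoint X ((univ \ B) \ A)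
      · refine mem_union_left _ (mem_filter.2 ⟨mem_powersetCard.2 ⟨?_, h5⟩, h3⟩)
        intro x hx
        have h7 := mem_erase.1 (h4 hx)
        refine mem_erase.2 ⟨h7.1, ?_⟩
        by_contra hxB
        exact (Finset.disjoint_left.1 h6 hx) (mem_sdiff.2 ⟨mem_sdiff.2 ⟨mem_univ x, hxB⟩,
          (mem_sdiff.1 h7.2).2⟩)
      · exact mem_union_right _ (mem_filter.2 ⟨mem_powersetCard.2 ⟨subset_univ _, h5⟩, h6⟩)
    exact (card_le_card h1).trans ((card_union_le _ _).trans
      (Nat.add_le_add_left (touch r _) _))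
  · have h1 : ((B.erase v).powersetCard (r + 1)).filter (fun T => insert v T ∈ H) ⊆
        ((univ \ A).powersetCard (r + 1)).filter (fun X => insert v X ∈ H) ∪
        (univ.powersetCard (r + 1)).filter (fun X => ¬ Disjoint X (A ∩ B)) := by
      intro X hX
      obtain ⟨h2, h3⟩ := mem_filter.1 hX
      obtain ⟨h4, h5⟩ := mem_powersetCard.1 h2
      by_cases h6 : Disjoint X (A ∩ B)
      · refine mem_union_left _ (mem_filter.2 ⟨mem_powersetCard.2 ⟨?_, h5⟩, h3⟩)
        intro x hx
        refine mem_sdiff.2 ⟨mem_univ x, fun hxA => ?_⟩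
        exact (Finset.disjoint_left.1 h6 hx) (mem_inter.2 ⟨hxA, (mem_erase.1 (h4 hx)).2⟩)
      · exact mem_union_right _ (mem_filter.2 ⟨mem_powersetCard.2 ⟨subset_univ _, h5⟩, h6⟩)
    exact (card_le_card h1).trans ((card_union_le _ _).trans
      (Nat.add_le_add_left (touch r _) _))
  · have h1 : ((univ \ A).powersetCard (r + 1)).filter (fun X => insert v X ∉ H) ⊆
        (B.powersetCard (r + 1)).filter (fun T => insert v T ∉ H) ∪
        (univ.powersetCard (r + 1)).filter (fun X => ¬ Disjoint X ((univ \ B) \ A)) := by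
      intro X hX
      obtain ⟨h2, h3⟩ := mem_filter.1 hX
      obtain ⟨h4, h5⟩ := mem_powersetCard.1 h2
      by_cases h6 : Disjoint X ((univ \ B) \ A)
      · refine mem_union_left _ (mem_filter.2 ⟨mem_powersetCard.2 ⟨?_, h5⟩, h3⟩)
        intro x hx
        by_contra hxB
        exact (Finset.disjoint_left.1 h6 hx) (mem_sdiff.2 ⟨mem_sdiff.2 ⟨mem_univ x, hxB⟩,
          (mem_sdiff.1 (h4 hx)).2⟩)
      · exact mem_union_right _ (mem_filter.2 ⟨mem_powersetCard.2 ⟨subset_univ _, h5⟩, h6⟩)
    exact (card_le_card h1).trans ((card_union_le _ _).trans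
      (Nat.add_le_add_left (touch r _) _))

/-- Markov -/
theorem markov (S T : Finset (Fin n)) (f : Fin n → ℕ) (c C : ℝ) (hT : T ⊆ S) (_hc : 0 ≤ c)
    (hf : ∀ v ∈ T, c ≤ (f v : ℝ)) (hC : ((∑ v ∈ S, f v : ℕ) : ℝ) ≤ C) :
    (T.card : ℝ) * c ≤ C := by
  have h1 : (T.card : ℝ) * c ≤ ∑ v ∈ T, (f v : ℝ) := by
    have := Finset.card_nsmul_le_sum T (fun v => (f v : ℝ)) c hf
    simpa [nsmul_eq_mul] using this
  have h2 : ∑ v ∈ T, (f v : ℝ) ≤ ∑ v ∈ S, (f v : ℝ) :=
    Finset.sum_le_sum_of_subset_of_nonneg hT fun v _ _ => Nat.cast_nonneg _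
  push_cast at hC
  linarith

theorem card_A (B A : Finset (Fin n)) (q : ℕ) (hB : B.card = n - q) (hq : q ≤ n) :
    |(A.card : ℝ) - q| ≤ max ((A ∩ B).card : ℝ) (((univ \ B) \ A).card : ℝ) := by
  have h1 : (A ∩ B).card + (A ∩ (univ \ B)).card = A.card := by
    rw [← card_union_of_disjoint]
    · congr 1
      ext x
      simp only [mem_union, mem_inter, mem_sdiff, mem_univ, true_and]
      tauto
    · rw [Finset.disjoint_left]
      intro x hx hx'
      exact (mem_sdiff.1 (mem_inter.1 hx').2).2 (mem_inter.1 hx).2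
  have h2 : (A ∩ (univ \ B)).card + ((univ \ B) \ A).card = (univ \ B).card := by
    rw [inter_comm, Finset.card_inter_add_card_sdiff]
  have h3 : (univ \ B).card = q := by
    rw [card_sdiff_of_subset (subset_univ _), card_univ, Fintype.card_fin, hB]
    omega
  rw [h3] at h2
  have h1R : ((A ∩ B).card : ℝ) + (A ∩ (univ \ B)).card = A.card := by exact_mod_cast h1
  have h2R : ((A ∩ (univ \ B)).card : ℝ) + ((univ \ B) \ A).card = q := by exact_mod_cast h2
  have e1 : (0 : ℝ) ≤ (A ∩ B).card := Nat.cast_nonneg _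
  have e2 : (0 : ℝ) ≤ ((univ \ B) \ A).card := Nat.cast_nonneg _
  rw [abs_le]
  constructor
  · have := le_max_right ((A ∩ B).card : ℝ) (((univ \ B) \ A).card : ℝ)
    linarith
  · have := le_max_left ((A ∩ B).card : ℝ) (((univ \ B) \ A).card : ℝ)
    linarith

/-- lower bound for the binomial coefficient -/
theorem choose_low (r N : ℕ) (x : ℝ) (hx : 0 ≤ x) (hN : x / 2 ≤ N) (hr : 4 * (r + 1) ≤ x) :
    (x / 4) ^ (r + 1) / ((r + 1).factorial : ℝ) ≤ ((N.choose (r + 1) : ℕ) : ℝ) := by
  have h1 : ((N + 1 - (r + 1) : ℕ) : ℝ) ^ (r + 1) ≤ ((r + 1).factorial : ℝ) *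
      ((N.choose (r + 1) : ℕ) : ℝ) := by
    have := Nat.pow_sub_le_descFactorial N (r + 1)
    rw [Nat.descFactorial_eq_factorial_mul_choose] at this
    exact_mod_cast this
  have h2 : x / 4 ≤ ((N + 1 - (r + 1) : ℕ) : ℝ) := by
    have h3 : r + 1 ≤ N := by
      have : ((r + 1 : ℕ) : ℝ) ≤ N := by push_cast; linarith
      exact_mod_cast this
    rw [Nat.cast_sub (by omega)]
    push_cast
    linarith
  rw [div_le_iff₀ (by positivity), mul_comm]
  exact (pow_le_pow_left₀ (by linarith) h2 _).trans h1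

theorem exs : S_EXS := by
  intro k hk
  obtain ⟨r, rfl⟩ : ∃ r, k = r + 2 := ⟨k - 2, by omega⟩
  have hr1 : 1 ≤ r := by omega
  set c1 : ℝ := 1 / (2 * 4 ^ (r + 1) * ((r + 1).factorial : ℝ)) with hc1
  have hc1p : 0 < c1 := by positivity
  refine ⟨2 * c1, by positivity, fun α hα hα0 γ hγ => ?_⟩
  set K : ℝ := (r : ℝ) + 2 with hK
  have hKp : 0 < K := by positivity
  set δ : ℝ := min (α / 4) (γ / 2) with hδ
  have hδp : 0 < δ := by positivity
  have hδα : δ ≤ α / 4 := min_le_left _ _
  have hδγ : δ ≤ γ / 2 := min_le_right _ _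
  set γ' : ℝ := min (δ * (α / 2) / K) (min (δ * c1 / (2 * K)) (γ ^ 2 / (8 * K))) with hγ'
  have hγp : 0 < γ' := by positivity
  have g1 : K * γ' ≤ δ * (α / 2) := by
    have : γ' ≤ δ * (α / 2) / K := min_le_left _ _
    rw [le_div_iff₀ hKp] at this
    linarith
  have g2 : 2 * K * γ' ≤ δ * c1 := by
    have : γ' ≤ δ * c1 / (2 * K) := (min_le_right _ _).trans (min_le_left _ _)
    rw [le_div_iff₀ (by positivity)] at this
    linarith
  have g3 : 8 * K * γ' ≤ γ ^ 2 := by
    have : γ' ≤ γ ^ 2 / (8 * K) := (min_le_right _ _).trans (min_le_right _ _)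
    rw [le_div_iff₀ (by positivity)] at this
    linarith
  refine ⟨γ', hγp, ⌈1 / (K * γ')⌉₊ + ⌈4 / α⌉₊ + 4 * (r + 1) + 1, ?_⟩
  intro n hn hkn H hH hD B hB hE
  have hn1 : 1 / (K * γ') ≤ (n : ℝ) := by
    refine (Nat.le_ceil _).trans ?_
    exact_mod_cast (by omega : ⌈1 / (K * γ')⌉₊ ≤ n)
  have hn2 : 4 / α ≤ (n : ℝ) := by
    refine (Nat.le_ceil _).trans ?_
    exact_mod_cast (by omega : ⌈4 / α⌉₊ ≤ n)
  have hn3 : 4 * ((r : ℝ) + 1) ≤ n := by
    exact_mod_cast (by omega : 4 * (r + 1) ≤ n)
  have hn0 : (0 : ℝ) < n := by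
    have : (0 : ℝ) ≤ r := Nat.cast_nonneg _
    linarith
  have hqn : n / (r + 2) ≤ n := Nat.div_le_self _ _
  set x : ℝ := (n : ℝ) with hx
  set R : ℝ := x ^ (r + 1) with hR
  have hRp : 0 < R := by positivity
  have hsub : r + 2 - 1 = r + 1 := rfl
  -- numbers
  have hxr : x ^ r * x = R := by rw [hR, pow_succ]
  have hxr2 : x ^ (r + 2) = x * R := by rw [hR, ← pow_succ']
  rw [hxr2] at hE
  have hone : 1 ≤ K * γ' * x := by
    rw [div_le_iff₀ (by positivity)] at hn1
    linarith
  have hxr_small : x ^ r ≤ α / 4 * R := by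
    rw [← hxr]
    have : 1 ≤ α / 4 * x := by
      rw [div_le_iff₀ hα] at hn2
      linarith
    have hp : 0 < x ^ r := by positivity
    nlinarith
  -- sums
  have hsd : ((∑ v ∈ B, dB r H B v : ℕ) : ℝ) ≤ K * γ' * x * R := by
    have h1 := sum_dB r H B hH
    have h2 : ((∑ v ∈ B, dB r H B v : ℕ) : ℝ) ≤ (((r + 2) * (H.filter (fun e => e ⊆ B)).card : ℕ) : ℝ) := by
      exact_mod_cast h1
    refine h2.trans ?_
    push_cast
    rw [← hK]
    have := mul_le_mul_of_nonneg_left hE hKp.le
    linarith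
  have hDv : ∀ v, (n - 1).choose (r + 1) + 1 ≤ deg H v + B.card.choose (r + 1) := by
    intro v
    have := hD v
    rw [hB]
    exact this
  have hmiss : ∀ v, (miss r H B v : ℝ) ≤ x ^ r + dB r H B v := by
    intro v
    have := miss_le r H B hH v (hDv v)
    have h2 : ((miss r H B v : ℕ) : ℝ) ≤ ((n ^ r + dB r H B v : ℕ) : ℝ) := by exact_mod_cast this
    push_cast at h2
    exact h2
  have hNE : ((∑ a ∈ univ \ B, nb r H B a : ℕ) : ℝ) ≤ 2 * (K * γ' * x * R) := by
    have h1 := sum_nb r H B
    have h2 : ((∑ a ∈ univ \ B, nb r H B a : ℕ) : ℝ) ≤ ((∑ v ∈ B, miss r H B v : ℕ) : ℝ) := by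
      exact_mod_cast h1
    refine h2.trans ?_
    push_cast
    have h3 : ∑ v ∈ B, (miss r H B v : ℝ) ≤ ∑ v ∈ B, (x ^ r + (dB r H B v : ℝ)) :=
      Finset.sum_le_sum fun v _ => hmiss v
    refine h3.trans ?_
    rw [Finset.sum_add_distrib, Finset.sum_const, nsmul_eq_mul]
    have h4 : (B.card : ℝ) * x ^ r ≤ R := by
      rw [← hxr, mul_comm (x ^ r)]
      refine mul_le_mul_of_nonneg_right ?_ (by positivity)
      rw [hx]
      have := card_le_univ B
      rw [Fintype.card_fin] at this
      exact_mod_cast this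
    have h5 : R ≤ K * γ' * x * R := by nlinarith
    push_cast at hsd
    linarith
  classical
  -- the set A
  set A : Finset (Fin n) := univ.filter (fun v => α / 2 * R ≤ (dB r H B v : ℝ)) with hA
  have hAm : ∀ v, v ∈ A ↔ α / 2 * R ≤ (dB r H B v : ℝ) := by
    intro v
    rw [hA, mem_filter]
    simp
  have hAB : ((A ∩ B).card : ℝ) ≤ δ * x := by
    have h1 := markov B (A ∩ B) (dB r H B) (α / 2 * R) (K * γ' * x * R) inter_subset_right
      (by positivity) (fun v hv => (hAm v).1 (mem_inter.1 hv).1) hsd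
    have h2 : K * γ' * x * R ≤ (δ * x) * (α / 2 * R) := by
      have h3 := mul_le_mul_of_nonneg_right g1 (by positivity : 0 ≤ x * R)
      linarith
    have h4 : ((A ∩ B).card : ℝ) * (α / 2 * R) ≤ (δ * x) * (α / 2 * R) := h1.trans h2
    exact le_of_mul_le_mul_right h4 (by positivity)
  have hBA : (((univ \ B) \ A).card : ℝ) ≤ δ * x := by
    have hch : 2 * c1 * R ≤ ((B.card.choose (r + 1) : ℕ) : ℝ) := by
      have hBc : x / 2 ≤ (B.card : ℝ) := by
        rw [hB, Nat.cast_sub hqn]
        have h1 : ((n / (r + 2) : ℕ) : ℝ) ≤ x / ((r + 2 : ℕ) : ℝ) := Nat.cast_div_le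
        have h2 : x / ((r + 2 : ℕ) : ℝ) ≤ x / 2 := by
          refine div_le_div_of_nonneg_left hn0.le (by norm_num) ?_
          push_cast
          have : (0 : ℝ) ≤ r := Nat.cast_nonneg _
          linarith
        linarith
      have h3 := choose_low r B.card x hn0.le hBc (by linarith)
      refine le_trans (le_of_eq ?_) h3
      rw [hc1, hR, div_pow]
      field_simp
    have h1 := markov (univ \ B) ((univ \ B) \ A) (nb r H B) (c1 * R) (2 * (K * γ' * x * R))
      sdiff_subset (by positivity) ?_ hNE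
    · have h2 : 2 * (K * γ' * x * R) ≤ (δ * x) * (c1 * R) := by
        have h3 := mul_le_mul_of_nonneg_right g2 (by positivity : 0 ≤ x * R)
        linarith
      exact le_of_mul_le_mul_right (h1.trans h2) (by positivity)
    · intro v hv
      obtain ⟨hv1, hv2⟩ := mem_sdiff.1 hv
      have hvB : v ∉ B := (mem_sdiff.1 hv1).2
      rw [hAm] at hv2
      push Not at hv2
      have h4 : dB r H B v + nb r H B v = B.card.choose (r + 1) := by
        unfold dB nb
        rw [erase_eq_of_notMem hvB, Finset.card_filter_add_card_filter_not, card_powersetCard]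
      have h5 : (dB r H B v : ℝ) + nb r H B v = ((B.card.choose (r + 1) : ℕ) : ℝ) := by
        exact_mod_cast h4
      have h6 : α / 2 * R ≤ c1 * R := mul_le_mul_of_nonneg_right (by linarith) hRp.le
      linarith
  have hcore := fun v => core r H B A v
  have hABR : ((A ∩ B).card : ℝ) * x ^ r ≤ δ * R := by
    have := mul_le_mul_of_nonneg_right hAB (by positivity : 0 ≤ x ^ r)
    rw [← hxr]
    linarith
  have hBAR : (((univ \ B) \ A).card : ℝ) * x ^ r ≤ δ * R := by
    have := mul_le_mul_of_nonneg_right hBA (by positivity : 0 ≤ x ^ r)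
    rw [← hxr]
    linarith
  have hδR : δ * R ≤ α / 4 * R := mul_le_mul_of_nonneg_right hδα hRp.le
  refine ⟨A, ⟨hH, ?_, ?_, ?_, ?_, ?_⟩⟩
  · have h1 := card_A B A (n / (r + 2)) hB hqn
    have h2 : ((n / (r + 2) : ℕ) : ℝ) = x / ((r + 2 : ℕ) : ℝ) := by
      rw [hx, Nat.cast_div hkn (by positivity)]
    rw [h2] at h1
    refine h1.trans (max_le (hAB.trans ?_) (hBA.trans ?_)) <;>
    · refine mul_le_mul_of_nonneg_right ?_ hn0.le
      linarith
  · intro v hv
    rw [hAm] at hv
    push Not at hv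
    have h1 := (hcore v).1
    have h2 : (((((univ.erase v).powersetCard (r + 1)).filter
      (fun X => ¬ Disjoint X A ∧ insert v X ∉ H)).card : ℕ) : ℝ) ≤
        ((miss r H B v + (A ∩ B).card * n ^ r : ℕ) : ℝ) := by exact_mod_cast h1
    push_cast at h2
    rw [hsub]
    refine h2.trans ?_
    have h3 := hmiss v
    linarith
  · intro v hv
    rw [hAm] at hv
    push Not at hv
    have h1 := (hcore v).2.1
    have h2 : (((((((univ \ A).erase v).powersetCard (r + 1)).filter
      (fun X => insert v X ∈ H)).card : ℕ)) : ℝ) ≤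
        ((dB r H B v + ((univ \ B) \ A).card * n ^ r : ℕ) : ℝ) := by exact_mod_cast h1
    push_cast at h2
    rw [hsub]
    refine h2.trans ?_
    linarith
  · intro v hv
    rw [hAm] at hv
    have h1 := (hcore v).2.2.1
    have h2 : (dB r H B v : ℝ) ≤ ((((((univ \ A).powersetCard (r + 1)).filter
      (fun X => insert v X ∈ H)).card + (A ∩ B).card * n ^ r : ℕ)) : ℝ) := by exact_mod_cast h1
    push_cast at h2
    rw [hsub]
    linarith
  · rw [hsub]
    set S := A.filter (fun a => γ * x ^ (r + 1) <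
      ((((univ \ A).powersetCard (r + 1)).filter (fun X => insert a X ∉ H)).card : ℝ)) with hS
    have hSsub : S ⊆ (S ∩ (univ \ B)) ∪ (A ∩ B) := by
      intro v hv
      by_cases hvB : v ∈ B
      · exact mem_union_right _ (mem_inter.2 ⟨(mem_filter.1 hv).1, hvB⟩)
      · exact mem_union_left _ (mem_inter.2 ⟨hv, mem_sdiff.2 ⟨mem_univ v, hvB⟩⟩)
    have h1 := markov (univ \ B) (S ∩ (univ \ B)) (nb r H B) (γ / 2 * R)
      (2 * (K * γ' * x * R)) inter_subset_right (by positivity) ?_ hNE
    · have h2 : 2 * (K * γ' * x * R) ≤ (γ / 2 * x) * (γ / 2 * R) := by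
        have h3 := mul_le_mul_of_nonneg_right g3 (by positivity : 0 ≤ x * R)
        linarith
      have h4 : ((S ∩ (univ \ B)).card : ℝ) ≤ γ / 2 * x :=
        le_of_mul_le_mul_right (h1.trans h2) (by positivity)
      have h5 : (S.card : ℝ) ≤ ((S ∩ (univ \ B)).card : ℝ) + ((A ∩ B).card : ℝ) := by
        have := (card_le_card hSsub).trans (card_union_le _ _)
        exact_mod_cast this
      have h6 : δ * x ≤ γ / 2 * x := mul_le_mul_of_nonneg_right hδγ hn0.le
      linarith
    · intro v hv
      have hvS := (mem_filter.1 (mem_inter.1 hv).1).2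
      have h2 := (hcore v).2.2.2
      have h3 : (((((univ \ A).powersetCard (r + 1)).filter
        (fun X => insert v X ∉ H)).card : ℕ) : ℝ) ≤
          ((nb r H B v + ((univ \ B) \ A).card * n ^ r : ℕ) : ℝ) := by exact_mod_cast h2
      push_cast at h3
      have h6 : δ * R ≤ γ / 2 * R := mul_le_mul_of_nonneg_right hδγ hRp.le
      linarith

end Pool.Agent.W804.EM
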